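import Pool.Agent.H817.HGeom

/-!
# MP_02cffa_gt, Q1: a transverse circle which no regular quasi-isometric embedding fills

`G = SL₂(ℝ) × SL₂(ℝ)`, `K = SO(2) × SO(2)`, `X = G/K = ℍ² × ℍ²`, `Θ = Δ` (both simple roots), so
that `F_Θ = G/P_Θ = ℝP¹ × ℝP¹`.  The transverse circle is the graph of the homeomorphism
`x ↦ x + max(x,0)²`, `∞ ↦ ∞` of `ℝP¹ = ℝ ∪ {∞}`, which is not quasisymmetric.

How the definitions match the problem file.
* `expA t` is `exp(H)` for the element `H` of the Cartan subspace `𝔞 = ℝ²` at which the two simple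
  restricted roots take the values `t.1`, `t.2`; the closed Weyl chamber is `t.1, t.2 ≥ 0`.
* `kappa g` is the Cartan projection: the `t` in the closed chamber with `g ∈ K exp(t) K`; its two
  coordinates are `α(κ(g))` for the two simple roots `α`.
* `d_X(gK, g'K)` is the norm of `κ(g⁻¹g')` (the product metric of curvature `-1` on each factor).
* A map `f : Z → X` is given by `z ↦ g_z`, `f(z) = g_z K`, as in the problem file.
* `IsU g ξ` is `ξ = U_Θ(g)`, `limitSet g` is the `Θ`-limit set.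
* `Transverse x y`: `(x, y)` lies in the open `G`-orbit of `F_Θ × F_Θ`.
* `Z` is a geodesic metric space (or only a quasi-geodesic one); this is the standing assumption
  under which the term Gromov hyperbolic space is used in this subject (for instance in the theorem of
  Kapovich, Leeb and Porti which the problem file quotes).  Neither local compactness nor
  hyperbolicity of `Z` is needed.

Idea of the proof.  Both components of `f` are quasi-isometric embeddings of `Z` in `ℍ²`.  By the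
Morse lemma every triple of points of `Z` has a point `w` which both components map close to the
centre of the image triangle.  For the triples with limits `(-τ, 0, ∞)` and `(τ, 0, ∞)` the centres
are at bounded distance in the first factor, hence in `Z`, hence in the second factor, where the
triples have limits `(-τ, 0, ∞)` and `(τ + τ², 0, ∞)` and the centres are at distance about `log τ`.
-/

set_option autoImplicit false

namespace Pool.Agent.Results.MP_02cffa_gt.NonQuasisymmetricCircle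

open Matrix UpperHalfPlane Filter Topology
open Pool.Agent.H817.Coarse Pool.Agent.H817.HGeom

/-- The real semisimple Lie group `G = SL₂(ℝ) × SL₂(ℝ)` -/
abbrev G := SL × SL

/-- its maximal compact subgroup `K = SO(2) × SO(2)` -/
def K : Subgroup G := SO2.prod SO2

/-- the upper triangular matrices in `SL₂(ℝ)` -/
def B : Subgroup SL where
  carrier := {g | g 1 0 = 0}
  mul_mem' := by
    intro a b ha hb
    change (a * b) 1 0 = 0
    have ha' : a 1 0 = 0 := ha
    have hb' : b 1 0 = 0 := hb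
    rw [Matrix.SpecialLinearGroup.coe_mul, Matrix.mul_apply, Fin.sum_univ_two, ha', hb']
    ring
  one_mem' := by
    change (1 : SL) 1 0 = 0
    rw [Matrix.SpecialLinearGroup.coe_one]
    simp
  inv_mem' := by
    intro a ha
    change (a⁻¹) 1 0 = 0
    have ha' : a 1 0 = 0 := ha
    rw [Matrix.SpecialLinearGroup.coe_inv, Matrix.adjugate_fin_two]
    simp [ha']

/-- the parabolic subgroup `P_Θ`, `Θ` = both simple roots -/
def P : Subgroup G := B.prod B

/-- the flag manifold `F_Θ = G/P_Θ` (with its quotient topology and `G`-action) -/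
abbrev F := G ⧸ P

/-- `exp` of the element of the Cartan subspace at which the simple roots take the values
`t.1` and `t.2` -/
noncomputable def expA (t : ℝ × ℝ) : G := (dg t.1, dg t.2)

/-- `t` is the Cartan projection of `g` -/
def IsKappa (g : G) (t : ℝ × ℝ) : Prop :=
  0 ≤ t.1 ∧ 0 ≤ t.2 ∧ ∃ k ∈ K, ∃ k' ∈ K, g = k * expA t * k'

/-- the Cartan projection; `(kappa g).1` and `(kappa g).2` are the values of the two simple
restricted roots on `κ(g)` -/
noncomputable def kappa (g : G) : ℝ × ℝ := Classical.epsilon (IsKappa g)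

/-- `d_X(gK, g'K)` -/
noncomputable def dX (g g' : G) : ℝ :=
  Real.sqrt ((kappa (g⁻¹ * g')).1 ^ 2 + (kappa (g⁻¹ * g')).2 ^ 2)

/-- `z ↦ g_z K` is a `Θ`-uniformly regular quasi-isometric embedding `Z → G/K` -/
def IsRegularQI {Z : Type*} [PseudoMetricSpace Z] (g : Z → G) : Prop :=
  ∃ L A : ℝ, 1 ≤ L ∧ 0 ≤ A ∧ ∀ z z' : Z, dX (g z) (g z') ≤ L * dist z z' + A ∧
    L⁻¹ * dist z z' - A ≤ (kappa ((g z)⁻¹ * g z')).1 ∧
    L⁻¹ * dist z z' - A ≤ (kappa ((g z)⁻¹ * g z')).2

/-- `ξ = U_Θ(g)` -/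
def IsU (g : G) (ξ : F) : Prop :=
  ∃ t : ℝ × ℝ, 0 < t.1 ∧ 0 < t.2 ∧ ∃ k ∈ K, ∃ k' ∈ K, g = k * expA t * k' ∧ ξ = (k : F)

/-- the `Θ`-limit set of `z ↦ g_z K` -/
def limitSet {Z : Type*} [PseudoMetricSpace Z] (g : Z → G) : Set F :=
  {ξ | ∃ z : ℕ → Z, Tendsto z atTop (Bornology.cobounded Z) ∧
    ∃ u : ℕ → F, (∀ᶠ m in atTop, IsU (g (z m)) (u m)) ∧ Tendsto u atTop (𝓝 ξ)}

/-- `x` and `y` are transverse: the `G`-orbit of `(x, y)` is open -/
def Transverse (x y : F) : Prop := IsOpen (MulAction.orbit G (x, y) : Set (F × F))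

/-- transverse spheres -/
def IsTransverseSphere (Λ : Set F) : Prop :=
  (∃ n : ℕ, 1 ≤ n ∧ Nonempty (Λ ≃ₜ Metric.sphere (0 : EuclideanSpace ℝ (Fin (n + 1))) 1)) ∧
    ∀ x ∈ Λ, ∀ y ∈ Λ, x ≠ y → Transverse x y

/-- geodesic metric space -/
def Geodesic (Z : Type*) [PseudoMetricSpace Z] : Prop :=
  ∀ x y : Z, ∃ γ : ℝ → Z, γ 0 = x ∧ γ (dist x y) = y ∧
    ∀ s ∈ Set.Icc 0 (dist x y), ∀ t ∈ Set.Icc 0 (dist x y), dist (γ s) (γ t) = |s - t|

/-- A quasi-geodesic metric space: any two points are joined by a (discrete) quasi-geodesic with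
uniform constants.  Geodesic metric spaces have this property, see `QuasiGeodesic.of_geodesic`. -/
def QuasiGeodesic (Z : Type*) [PseudoMetricSpace Z] : Prop :=
  ∃ c : ℝ, 1 ≤ c ∧ ∀ x y : Z, ∃ (n : ℕ) (q : ℕ → Z), q 0 = x ∧ q n = y ∧
    ∀ i j : ℕ, i ≤ j → j ≤ n →
      (j - i : ℝ) / c - c ≤ dist (q i) (q j) ∧ dist (q i) (q j) ≤ c * (j - i) + c

/-- the matrix `[[x, -1], [1, 0]]`; its class in `SL₂(ℝ)/B = ℝP¹` is the line spanned by
`(x, 1)`, i.e. the point `x` of `ℝ ∪ {∞}` -/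
def s (x : ℝ) : SL := ⟨!![x, -1; 1, 0], by rw [Matrix.det_fin_two_of]; ring⟩

/-- the graph of `x ↦ x + max(x,0)²`, `∞ ↦ ∞` in `ℝP¹ × ℝP¹ = G/P` -/
def Lam : Set F := {((1 : G) : F)} ∪ Set.range fun x : ℝ => (((s x, s (x + (max x 0) ^ 2)) : G) : F)

/-! ### the topology of `G/P` -/

/-- the line spanned by the first column, as (part of) the projection matrix -/
noncomputable def q1 (g : SL) : ℝ × ℝ :=
  (g 0 0 ^ 2 / (g 0 0 ^ 2 + g 1 0 ^ 2), g 0 0 * g 1 0 / (g 0 0 ^ 2 + g 1 0 ^ 2))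

theorem nsq_pos (g : SL) : 0 < g 0 0 ^ 2 + g 1 0 ^ 2 := by
  have h := g.2
  rw [Matrix.det_fin_two] at h
  rcases eq_or_ne (g 0 0) 0 with h0 | h0
  · rcases eq_or_ne (g 1 0) 0 with h1 | h1
    · rw [h0, h1] at h
      norm_num at h
    · positivity
  · positivity

theorem continuous_entry (i j : Fin 2) : Continuous fun g : SL => g i j := by
  have h : Continuous fun g : SL => (g : Matrix (Fin 2) (Fin 2) ℝ) := continuous_subtype_val
  exact h.matrix_elem i j

theorem continuous_q1 : Continuous q1 := by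
  unfold q1
  have h0 := continuous_entry 0 0
  have h1 := continuous_entry 1 0
  refine Continuous.prodMk ?_ ?_
  · exact (h0.pow 2).div ((h0.pow 2).add (h1.pow 2)) (fun g => (nsq_pos g).ne')
  · exact (h0.mul h1).div ((h0.pow 2).add (h1.pow 2)) (fun g => (nsq_pos g).ne')

theorem inv_mul_10 (g g' : SL) : (g⁻¹ * g') 1 0 = g 0 0 * g' 1 0 - g 1 0 * g' 0 0 := by
  rw [Matrix.SpecialLinearGroup.coe_mul, Matrix.mul_apply, Fin.sum_univ_two,
    Matrix.SpecialLinearGroup.coe_inv, Matrix.adjugate_fin_two]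
  simp
  ring

theorem mem_B (g : SL) : g ∈ B ↔ g 1 0 = 0 := Iff.rfl

theorem q1_eq_iff (g g' : SL) : q1 g = q1 g' ↔ g⁻¹ * g' ∈ B := by
  rw [mem_B, inv_mul_10]
  have hN := nsq_pos g
  have hN' := nsq_pos g'
  unfold q1
  obtain ⟨p, hp⟩ : ∃ p, p = g 0 0 := ⟨_, rfl⟩
  obtain ⟨q, hq⟩ : ∃ q, q = g 1 0 := ⟨_, rfl⟩
  obtain ⟨p', hp'⟩ : ∃ p, p = g' 0 0 := ⟨_, rfl⟩
  obtain ⟨q', hq'⟩ : ∃ q, q = g' 1 0 := ⟨_, rfl⟩
  rw [← hp, ← hq] at hN
  rw [← hp', ← hq'] at hN'
  rw [← hp, ← hq, ← hp', ← hq', Prod.mk.injEq]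
  constructor
  · rintro ⟨h1, h2⟩
    rw [div_eq_div_iff hN.ne' hN'.ne'] at h1 h2
    have h3 : (p * q' - q * p') ^ 2 * ((p ^ 2 + q ^ 2) * (p' ^ 2 + q' ^ 2)) = 0 := by
      have e1 : p ^ 2 * q' ^ 2 = q ^ 2 * p' ^ 2 := by linarith
      have e2 : (p * q' - q * p') * (p * p' + q * q') = 0 := by
        by_cases hh : p * q' - q * p' = 0
        · rw [hh, zero_mul]
        · have : p * q' + q * p' = 0 := by
            have : (p * q' - q * p') * (p * q' + q * p') = 0 := by linarith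
            rcases mul_eq_zero.1 this with h | h
            · exact absurd h hh
            · exact h
          have h5 : p * q * (p' ^ 2 + q' ^ 2) - p' * q' * (p ^ 2 + q ^ 2) = 0 := by linarith
          have h6 : p * q * (p' ^ 2 + q' ^ 2) - p' * q' * (p ^ 2 + q ^ 2) =
            (q * p' - p * q') * (p * p' - q * q') := by ring
          have h7 : p * p' - q * q' = 0 := by
            rw [h6] at h5
            rcases mul_eq_zero.1 h5 with h | h
            · exact absurd (by linarith) hh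
            · exact h
          -- p q' = - q p', p p' = q q'
          exfalso
          have h8 : p' * (p ^ 2 + q ^ 2) = 0 := by
            linear_combination p * h7 + q * this
          have h9 : q' * (p ^ 2 + q ^ 2) = 0 := by
            linear_combination p * this - q * h7
          have h10 : p' = 0 := by
            rcases mul_eq_zero.1 h8 with h | h
            · exact h
            · exact absurd h hN.ne'
          have h11 : q' = 0 := by
            rcases mul_eq_zero.1 h9 with h | h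
            · exact h
            · exact absurd h hN.ne'
          rw [h10, h11] at hN'
          norm_num at hN'
      have e3 : (p * q' - q * p') ^ 2 * ((p ^ 2 + q ^ 2) * (p' ^ 2 + q' ^ 2)) =
          (p * q' - q * p') ^ 2 * ((p * q' - q * p') ^ 2 + (p * p' + q * q') ^ 2) := by ring
      have e4 : (p * q' - q * p') ^ 2 * ((p * q' - q * p') ^ 2) = 0 := by
        have : (p * q' - q * p') * (p * q' + q * p') = 0 := by linarith
        by_cases hh : p * q' - q * p' = 0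
        · rw [hh]; ring
        · exfalso
          have h0 : p * p' + q * q' = 0 := by
            rcases mul_eq_zero.1 e2 with h | h
            · exact absurd h hh
            · exact h
          have h1' : p * q' + q * p' = 0 := by
            rcases mul_eq_zero.1 this with h | h
            · exact absurd h hh
            · exact h
          have h5 : p * q * (p' ^ 2 + q' ^ 2) - p' * q' * (p ^ 2 + q ^ 2) = 0 := by linarith
          have h6 : p * q * (p' ^ 2 + q' ^ 2) - p' * q' * (p ^ 2 + q ^ 2) =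
            (q * p' - p * q') * (p * p' - q * q') := by ring
          have h7 : p * p' - q * q' = 0 := by
            rw [h6] at h5
            rcases mul_eq_zero.1 h5 with h | h
            · exact absurd (by linarith) hh
            · exact h
          have h8 : p * p' = 0 := by linarith
          have h9 : q * q' = 0 := by linarith
          rcases mul_eq_zero.1 h8 with h | h
          · rcases mul_eq_zero.1 h9 with h' | h'
            · rw [h, h'] at hN; norm_num at hN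
            · rw [h, h'] at hh
              rw [h, h'] at h1'
              simp at h1' hh
              rcases h1' with h2' | h2'
              · exact hh.1 h2'
              · exact hh.2 h2'
          · rcases mul_eq_zero.1 h9 with h' | h'
            · rw [h, h'] at hh h1'
              simp at h1' hh
              rcases h1' with h2' | h2'
              · exact hh.1 h2'
              · exact hh.2 h2'
            · rw [h, h'] at hN'; norm_num at hN'
      rw [e3, mul_add, e4, zero_add, ← mul_pow, e2]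
      norm_num
    rcases mul_eq_zero.1 h3 with h | h
    · exact pow_eq_zero_iff two_ne_zero |>.1 h
    · exact absurd h (mul_pos hN hN').ne'
  · intro h
    constructor
    · rw [div_eq_div_iff hN.ne' hN'.ne']
      linear_combination (p * q' + q * p') * h
    · rw [div_eq_div_iff hN.ne' hN'.ne']
      linear_combination (q * q' - p * p') * h

theorem mem_P (g : G) : g ∈ P ↔ g.1 ∈ B ∧ g.2 ∈ B := Iff.rfl

/-- the pair of lines, as a map on `F` -/
noncomputable def q2 : F → (ℝ × ℝ) × (ℝ × ℝ) :=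
  Quotient.lift (fun g : G => (q1 g.1, q1 g.2)) (by
    intro a b hab
    have h : a⁻¹ * b ∈ P := QuotientGroup.leftRel_apply.1 hab
    obtain ⟨h1, h2⟩ := h
    exact Prod.ext ((q1_eq_iff _ _).2 h1) ((q1_eq_iff _ _).2 h2))

theorem q2_mk (g : G) : q2 (g : F) = (q1 g.1, q1 g.2) := rfl

theorem continuous_q2 : Continuous q2 := by
  refine Continuous.quotient_lift ?_ _
  exact (continuous_q1.comp continuous_fst).prodMk (continuous_q1.comp continuous_snd)

theorem injective_q2 : Function.Injective q2 := by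
  intro x y
  refine QuotientGroup.induction_on x fun a => ?_
  refine QuotientGroup.induction_on y fun b => ?_
  intro h
  rw [q2_mk, q2_mk, Prod.mk.injEq] at h
  rw [QuotientGroup.eq]
  exact ⟨(q1_eq_iff _ _).1 h.1, (q1_eq_iff _ _).1 h.2⟩

instance : T2Space F := T2Space.of_injective_continuous injective_q2 continuous_q2

/-! ### transversality -/

/-- `[[0, -1], [1, 0]]` -/
def J : SL := ⟨!![0, -1; 1, 0], by rw [Matrix.det_fin_two_of]; ring⟩

theorem exists_std (g g' : SL) (h : g⁻¹ * g' ∉ B) :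
    ∃ m : SL, m⁻¹ * g ∈ B ∧ (m * J)⁻¹ * g' ∈ B := by
  obtain ⟨γ, hγ⟩ : ∃ γ, γ = g⁻¹ * g' := ⟨_, rfl⟩
  rw [← hγ, mem_B] at h
  have hdet : (!![1 / γ 1 0, γ 0 0; 0, γ 1 0] : Matrix (Fin 2) (Fin 2) ℝ).det = 1 := by
    rw [Matrix.det_fin_two_of, mul_zero, sub_zero, one_div, inv_mul_cancel₀ h]
  obtain ⟨β, hβ⟩ : ∃ β : SL, β = ⟨!![1 / γ 1 0, γ 0 0; 0, γ 1 0], hdet⟩ := ⟨_, rfl⟩
  have hβB : β ∈ B := by rw [mem_B, hβ]; rfl
  refine ⟨g * β, ?_, ?_⟩
  · have : (g * β)⁻¹ * g = β⁻¹ := by group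
    rw [this]
    exact inv_mem hβB
  · have h1 : (g * β * J)⁻¹ * g' = (β * J)⁻¹ * γ := by rw [hγ]; group
    rw [h1, mem_B, inv_mul_10]
    have e1 : (β * J) 0 0 = γ 0 0 := by
      rw [Matrix.SpecialLinearGroup.coe_mul, Matrix.mul_apply, Fin.sum_univ_two, hβ]
      simp [J]
    have e2 : (β * J) 1 0 = γ 1 0 := by
      rw [Matrix.SpecialLinearGroup.coe_mul, Matrix.mul_apply, Fin.sum_univ_two, hβ]
      simp [J]
    rw [e1, e2]
    ring

theorem transverse_of (g g' : G) (h1 : g.1⁻¹ * g'.1 ∉ B) (h2 : g.2⁻¹ * g'.2 ∉ B) :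
    Transverse (g : F) (g' : F) := by
  have key : (MulAction.orbit G ((g : F), (g' : F)) : Set (F × F)) =
      {p | (q2 p.1).1 ≠ (q2 p.2).1 ∧ (q2 p.1).2 ≠ (q2 p.2).2} := by
    ext ⟨a, b⟩
    refine QuotientGroup.induction_on a fun a => ?_
    refine QuotientGroup.induction_on b fun b => ?_
    change _ ↔ (q1 a.1 ≠ q1 b.1 ∧ q1 a.2 ≠ q1 b.2)
    constructor
    · rintro ⟨m, hm⟩
      have hm1 : ((m * g : G) : F) = (a : F) := (Prod.ext_iff.1 hm).1
      have hm2 : ((m * g' : G) : F) = (b : F) := (Prod.ext_iff.1 hm).2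
      rw [QuotientGroup.eq] at hm1 hm2
      have e1 : q1 (m * g).1 = q1 a.1 := (q1_eq_iff _ _).2 hm1.1
      have e2 : q1 (m * g).2 = q1 a.2 := (q1_eq_iff _ _).2 hm1.2
      have e3 : q1 (m * g').1 = q1 b.1 := (q1_eq_iff _ _).2 hm2.1
      have e4 : q1 (m * g').2 = q1 b.2 := (q1_eq_iff _ _).2 hm2.2
      rw [← e1, ← e2, ← e3, ← e4]
      constructor
      · intro h
        apply h1
        have h3 := (q1_eq_iff _ _).1 h
        have : (m * g).1⁻¹ * (m * g').1 = g.1⁻¹ * g'.1 := by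
          change (m.1 * g.1)⁻¹ * (m.1 * g'.1) = _
          group
        rwa [this] at h3
      · intro h
        apply h2
        have h3 := (q1_eq_iff _ _).1 h
        have : (m * g).2⁻¹ * (m * g').2 = g.2⁻¹ * g'.2 := by
          change (m.2 * g.2)⁻¹ * (m.2 * g'.2) = _
          group
        rwa [this] at h3
    · rintro ⟨h3, h4⟩
      have h3' : a.1⁻¹ * b.1 ∉ B := fun h => h3 ((q1_eq_iff _ _).2 h)
      have h4' : a.2⁻¹ * b.2 ∉ B := fun h => h4 ((q1_eq_iff _ _).2 h)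
      obtain ⟨m1, u1, v1⟩ := exists_std _ _ h1
      obtain ⟨m2, u2, v2⟩ := exists_std _ _ h2
      obtain ⟨n1, x1, y1⟩ := exists_std _ _ h3'
      obtain ⟨n2, x2, y2⟩ := exists_std _ _ h4'
      refine ⟨(n1 * m1⁻¹, n2 * m2⁻¹), ?_⟩
      have aux : ∀ (m n c d : SL), m⁻¹ * c ∈ B → n⁻¹ * d ∈ B → (n * m⁻¹ * c)⁻¹ * d ∈ B := by
        intro m n c d hc hd
        have : (n * m⁻¹ * c)⁻¹ * d = (m⁻¹ * c)⁻¹ * (n⁻¹ * d) := by group
        rw [this]
        exact mul_mem (inv_mem hc) hd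
      have aux2 : ∀ (m n c d : SL), (m * J)⁻¹ * c ∈ B → (n * J)⁻¹ * d ∈ B →
          (n * m⁻¹ * c)⁻¹ * d ∈ B := by
        intro m n c d hc hd
        have : (n * m⁻¹ * c)⁻¹ * d = ((m * J)⁻¹ * c)⁻¹ * ((n * J)⁻¹ * d) := by group
        rw [this]
        exact mul_mem (inv_mem hc) hd
      refine Prod.ext ?_ ?_
      · change (((n1 * m1⁻¹, n2 * m2⁻¹) * g : G) : F) = (a : F)
        rw [QuotientGroup.eq]
        exact ⟨aux _ _ _ _ u1 x1, aux _ _ _ _ u2 x2⟩
      · change (((n1 * m1⁻¹, n2 * m2⁻¹) * g' : G) : F) = (b : F)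
        rw [QuotientGroup.eq]
        exact ⟨aux2 _ _ _ _ v1 y1, aux2 _ _ _ _ v2 y2⟩
  unfold Transverse
  rw [key]
  have c1 : Continuous fun p : F × F => (q2 p.1) := continuous_q2.comp continuous_fst
  have c2 : Continuous fun p : F × F => (q2 p.2) := continuous_q2.comp continuous_snd
  exact (isOpen_ne_fun (continuous_fst.comp c1) (continuous_fst.comp c2)).inter
    (isOpen_ne_fun (continuous_snd.comp c1) (continuous_snd.comp c2))

/-! ### the circle -/

/-- the homeomorphism of `ℝ` -/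
noncomputable def hR (x : ℝ) : ℝ := x + (max x 0) ^ 2

theorem hR_strictMono : StrictMono hR := by
  intro x y hxy
  unfold hR
  have h1 : max x 0 ≤ max y 0 := max_le_max_right 0 hxy.le
  have h2 : 0 ≤ max x 0 := le_max_right _ _
  have h3 : (max x 0) ^ 2 ≤ (max y 0) ^ 2 := by gcongr
  linarith

theorem hR_continuous : Continuous hR := by
  unfold hR
  fun_prop

/-- parametrisation of the circle -/
noncomputable def par : OnePoint ℝ → F
  | none => ((1 : G) : F)
  | some x => (((s x, s (hR x)) : G) : F)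

theorem par_infty : par OnePoint.infty = ((1 : G) : F) := rfl

theorem par_coe (x : ℝ) : par (x : OnePoint ℝ) = (((s x, s (hR x)) : G) : F) := rfl

theorem range_par : Set.range par = Lam := by
  ext ξ
  constructor
  · rintro ⟨x, rfl⟩
    induction x using OnePoint.rec with
    | infty => exact Or.inl rfl
    | coe x => exact Or.inr ⟨x, rfl⟩
  · rintro (h | ⟨x, rfl⟩)
    · exact ⟨OnePoint.infty, h.symm⟩
    · exact ⟨(x : OnePoint ℝ), rfl⟩

theorem s_inv_s (x y : ℝ) : ((s x)⁻¹ * s y) 1 0 = x - y := by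
  rw [inv_mul_10]
  simp [s]

theorem s_ne {x y : ℝ} (h : x ≠ y) : (s x)⁻¹ * s y ∉ B := by
  rw [mem_B, s_inv_s]
  exact sub_ne_zero.2 h

theorem one_s (x : ℝ) : (1 : SL)⁻¹ * s x ∉ B := by
  rw [mem_B, inv_mul_10, Matrix.SpecialLinearGroup.coe_one]
  simp [s]

theorem s_one (x : ℝ) : (s x)⁻¹ * (1 : SL) ∉ B := by
  rw [mem_B, inv_mul_10, Matrix.SpecialLinearGroup.coe_one]
  simp [s]

theorem par_trans {x y : OnePoint ℝ} (h : x ≠ y) : ∃ g g' : G, par x = g ∧ par y = g' ∧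
    g.1⁻¹ * g'.1 ∉ B ∧ g.2⁻¹ * g'.2 ∉ B := by
  induction x using OnePoint.rec with
  | infty =>
    induction y using OnePoint.rec with
    | infty => exact absurd rfl h
    | coe y => exact ⟨1, (s y, s (hR y)), rfl, rfl, one_s y, one_s (hR y)⟩
  | coe x =>
    induction y using OnePoint.rec with
    | infty => exact ⟨(s x, s (hR x)), 1, rfl, rfl, s_one x, s_one (hR x)⟩
    | coe y =>
      have hxy : x ≠ y := fun e => h (by rw [e])
      exact ⟨(s x, s (hR x)), (s y, s (hR y)), rfl, rfl, s_ne hxy,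
        s_ne (hR_strictMono.injective.ne hxy)⟩

theorem par_injective : Function.Injective par := by
  intro x y h
  by_contra hne
  obtain ⟨g, g', h1, h2, h3, _⟩ := par_trans hne
  rw [h1, h2, QuotientGroup.eq] at h
  exact h3 h.1

/-- `[[1, 0], [y, 1]]` -/
def lo (y : ℝ) : SL := ⟨!![1, 0; y, 1], by rw [Matrix.det_fin_two_of]; ring⟩

theorem s_lo {x : ℝ} (hx : x ≠ 0) : (s x)⁻¹ * lo x⁻¹ ∈ B := by
  rw [mem_B, inv_mul_10]
  simp [s, lo, hx]

theorem continuous_s : Continuous s := by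
  refine Continuous.subtype_mk ?_ _
  refine continuous_matrix ?_
  intro i j
  fin_cases i <;> fin_cases j <;> simp <;> fun_prop

theorem continuous_lo : Continuous lo := by
  refine Continuous.subtype_mk ?_ _
  refine continuous_matrix ?_
  intro i j
  fin_cases i <;> fin_cases j <;> simp <;> fun_prop

theorem lo_zero : lo 0 = 1 := by
  apply Subtype.ext
  rw [Matrix.SpecialLinearGroup.coe_one]
  ext i j
  fin_cases i <;> fin_cases j <;> simp [lo]

theorem hR_tendsto : Tendsto hR (cocompact ℝ) (cocompact ℝ) := by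
  rw [← Metric.cobounded_eq_cocompact, ← tendsto_norm_atTop_iff_cobounded]
  refine tendsto_atTop_mono ?_ tendsto_norm_cobounded_atTop
  intro x
  rw [Real.norm_eq_abs, Real.norm_eq_abs]
  unfold hR
  rcases le_total 0 x with h | h
  · rw [max_eq_left h, abs_of_nonneg h, abs_of_nonneg (by positivity)]
    nlinarith
  · rw [max_eq_right h]
    simp

theorem par_continuous : Continuous par := by
  rw [OnePoint.continuous_iff]
  constructor
  · rw [Filter.coclosedCompact_eq_cocompact]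
    have e : (fun x : ℝ => par (x : OnePoint ℝ)) =ᶠ[cocompact ℝ]
        fun x => (((lo x⁻¹, lo (hR x)⁻¹) : G) : F) := by
      have h0 : ∀ᶠ x : ℝ in cocompact ℝ, x ≠ 0 := by
        have : {(0 : ℝ)}ᶜ ∈ cocompact ℝ := isCompact_singleton.compl_mem_cocompact
        exact this
      filter_upwards [h0, hR_tendsto.eventually h0] with x hx hx'
      rw [par_coe, QuotientGroup.eq]
      exact ⟨s_lo hx, s_lo hx'⟩
    refine Tendsto.congr' e.symm ?_
    rw [par_infty]
    have hinv : Tendsto (fun x : ℝ => x⁻¹) (cocompact ℝ) (𝓝 0) := by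
      rw [← Metric.cobounded_eq_cocompact]
      exact tendsto_inv₀_cobounded
    have h1 : Tendsto (fun x : ℝ => lo x⁻¹) (cocompact ℝ) (𝓝 1) := by
      rw [← lo_zero]
      exact (continuous_lo.tendsto 0).comp hinv
    have h2 : Tendsto (fun x : ℝ => lo (hR x)⁻¹) (cocompact ℝ) (𝓝 1) := by
      rw [← lo_zero]
      exact (continuous_lo.tendsto 0).comp (hinv.comp hR_tendsto)
    have h3 : Tendsto (fun x : ℝ => ((lo x⁻¹, lo (hR x)⁻¹) : G)) (cocompact ℝ)
        (𝓝 ((1, 1) : G)) := h1.prodMk_nhds h2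
    exact (QuotientGroup.continuous_mk.tendsto (1 : G)).comp h3
  · have h : Continuous fun x : ℝ => ((s x, s (hR x)) : G) :=
      continuous_s.prodMk (continuous_s.comp hR_continuous)
    exact QuotientGroup.continuous_mk.comp h

theorem lam_sphere : IsTransverseSphere Lam := by
  constructor
  · refine ⟨1, le_rfl, ?_⟩
    have e1 : OnePoint ℝ ≃ₜ Set.range par :=
      (par_continuous.isClosedEmbedding par_injective).isEmbedding.toHomeomorph
    have e2 : OnePoint ℝ ≃ₜ Metric.sphere (0 : EuclideanSpace ℝ (Fin (1 + 1))) 1 :=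
      onePointEquivSphereOfFinrankEq (by simp)
    rw [← range_par]
    exact ⟨e1.symm.trans e2⟩
  · intro x hx y hy hxy
    rw [← range_par] at hx hy
    obtain ⟨x, rfl⟩ := hx
    obtain ⟨y, rfl⟩ := hy
    obtain ⟨g, g', h1, h2, h3, h4⟩ := par_trans (x := x) (y := y) (fun e => hxy (by rw [e]))
    rw [h1, h2]
    exact transverse_of g g' h3 h4

/-! ### the Cartan projection -/

theorem isKappa_eq {g : G} {t : ℝ × ℝ} (h : IsKappa g t) :
    t = (dist (I : ℍ) (g.1 • I), dist (I : ℍ) (g.2 • I)) := by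
  obtain ⟨h1, h2, k, hk, k', hk', rfl⟩ := h
  have e1 := dist_cartan h1 hk.1 hk'.1
  have e2 := dist_cartan h2 hk.2 hk'.2
  exact Prod.ext e1.symm e2.symm

theorem isKappa_kappa (g : G) : IsKappa g (kappa g) := by
  refine Classical.epsilon_spec (p := IsKappa g) ?_
  obtain ⟨t1, ht1, k1, hk1, k1', hk1', h1⟩ := exists_cartan g.1
  obtain ⟨t2, ht2, k2, hk2, k2', hk2', h2⟩ := exists_cartan g.2
  exact ⟨(t1, t2), ht1, ht2, (k1, k2), ⟨hk1, hk2⟩, (k1', k2'), ⟨hk1', hk2'⟩, Prod.ext h1 h2⟩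

theorem kappa_eq (g : G) : kappa g = (dist (I : ℍ) (g.1 • I), dist (I : ℍ) (g.2 • I)) :=
  isKappa_eq (isKappa_kappa g)

theorem kappa_fst (g g' : G) : (kappa (g⁻¹ * g')).1 = dist (g.1 • (I : ℍ)) (g'.1 • I) := by
  rw [kappa_eq]
  change dist (I : ℍ) ((g.1⁻¹ * g'.1) • I) = _
  rw [mul_smul, ← dist_smul g.1, smul_inv_smul]

theorem kappa_snd (g g' : G) : (kappa (g⁻¹ * g')).2 = dist (g.2 • (I : ℍ)) (g'.2 • I) := by
  rw [kappa_eq]
  change dist (I : ℍ) ((g.2⁻¹ * g'.2) • I) = _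
  rw [mul_smul, ← dist_smul g.2, smul_inv_smul]

/-! ### boundary behaviour -/

theorem smul_formula {k : SL} (hk : k ∈ SO2) (t : ℝ) :
    (k • (dg t • (I : ℍ)) : ℍ).re = (k 0 0 * k 1 0) * (1 - Real.exp (-t) ^ 2) /
      (k 0 0 ^ 2 * Real.exp (-t) ^ 2 + (1 - k 0 0 ^ 2)) ∧
    (k • (dg t • (I : ℍ)) : ℍ).im = Real.exp (-t) /
      (k 0 0 ^ 2 * Real.exp (-t) ^ 2 + (1 - k 0 0 ^ 2)) := by
  obtain ⟨h1, h2, h3⟩ := SO2_entries hk
  obtain ⟨d1, d2⟩ := dg_smul_I t
  obtain ⟨a, ha⟩ : ∃ a, a = k 0 0 := ⟨_, rfl⟩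
  obtain ⟨b, hb⟩ : ∃ b, b = k 1 0 := ⟨_, rfl⟩
  obtain ⟨e, he⟩ : ∃ e, e = Real.exp (-t) := ⟨_, rfl⟩
  have he0 : 0 < e := by rw [he]; exact Real.exp_pos _
  have hT : Real.exp t = 1 / e := by rw [he, Real.exp_neg, one_div, inv_inv]
  rw [← ha, ← hb] at h1
  have hz : ((dg t • (I : ℍ) : ℍ) : ℂ) = (1 / e : ℝ) * Complex.I := by
    apply Complex.ext
    · change (dg t • (I : ℍ)).re = _
      rw [d1]
      simp
    · change (dg t • (I : ℍ)).im = _
      rw [d2, hT, Complex.im_ofReal_mul, Complex.I_im, mul_one]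
  have hden : 0 < a ^ 2 * e ^ 2 + (1 - a ^ 2) := by
    have : 1 - a ^ 2 = b ^ 2 := by linarith
    rw [this]
    rcases eq_or_ne a 0 with h0 | h0
    · have : b ^ 2 = 1 := by rw [h0] at h1; linarith
      rw [this, h0]; norm_num
    · positivity
  have hv : ((k • (dg t • (I : ℍ)) : ℍ) : ℂ) =
      ⟨(a * b) * (1 - e ^ 2) / (a ^ 2 * e ^ 2 + (1 - a ^ 2)), e / (a ^ 2 * e ^ 2 + (1 - a ^ 2))⟩ := by
    rw [coe_smul', h2, h3, hz, ← ha, ← hb]
    have hd : ((b : ℂ) * (((1 / e : ℝ) : ℂ) * Complex.I) + (a : ℂ)) ≠ 0 := by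
      intro h
      have e1 := congrArg Complex.re h
      have e2 := congrArg Complex.im h
      simp [he0.ne'] at e1 e2
      rw [e1, e2] at h1
      norm_num at h1
    rw [div_eq_iff hd]
    have hb2 : b ^ 2 = 1 - a ^ 2 := by linarith
    apply Complex.ext
    · simp only [Complex.add_re, Complex.mul_re, Complex.ofReal_re, Complex.ofReal_im,
        Complex.I_re, Complex.I_im, Complex.mul_im, Complex.add_im, Complex.neg_re,
        Complex.ofReal_neg]
      field_simp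
      ring
    · simp only [Complex.add_re, Complex.mul_re, Complex.ofReal_re, Complex.ofReal_im,
        Complex.I_re, Complex.I_im, Complex.mul_im, Complex.add_im,
        Complex.ofReal_neg, Complex.neg_im]
      field_simp
      linear_combination (a * e ^ 2 - a) * hb2
  rw [← ha, ← hb, ← he]
  exact ⟨congrArg Complex.re hv, congrArg Complex.im hv⟩

theorem q1_SO2 {k : SL} (hk : k ∈ SO2) : q1 k = (k 0 0 ^ 2, k 0 0 * k 1 0) := by
  obtain ⟨h1, _, _⟩ := SO2_entries hk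
  unfold q1
  rw [h1, div_one, div_one]

theorem exp_neg_tendsto {t : ℕ → ℝ} (ht : Tendsto t atTop atTop) :
    Tendsto (fun m => Real.exp (-(t m))) atTop (𝓝 0) :=
  Real.tendsto_exp_neg_atTop_nhds_zero.comp ht

theorem tendsto_finite {k : ℕ → SL} {t : ℕ → ℝ} (hk : ∀ᶠ m in atTop, k m ∈ SO2)
    (ht : Tendsto t atTop atTop) (x : ℝ)
    (hq : Tendsto (fun m => q1 (k m)) atTop (𝓝 (q1 (s x)))) :
    Tendsto (fun m => ((k m • (dg (t m) • (I : ℍ)) : ℍ) : ℂ)) atTop (𝓝 (x : ℂ)) := by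
  have hqs : q1 (s x) = (x ^ 2 / (x ^ 2 + 1), x / (x ^ 2 + 1)) := by
    unfold q1
    simp [s]
  rw [hqs] at hq
  have hx : 0 < x ^ 2 + 1 := by positivity
  have q1' : Tendsto (fun m => (q1 (k m)).1) atTop (𝓝 (x ^ 2 / (x ^ 2 + 1))) :=
    (continuous_fst.tendsto _).comp hq
  have q2' : Tendsto (fun m => (q1 (k m)).2) atTop (𝓝 (x / (x ^ 2 + 1))) :=
    (continuous_snd.tendsto _).comp hq
  have he := exp_neg_tendsto ht
  have hden : Tendsto (fun m => (q1 (k m)).1 * Real.exp (-(t m)) ^ 2 + (1 - (q1 (k m)).1)) atTop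
      (𝓝 (1 / (x ^ 2 + 1))) := by
    have h := (q1'.mul (he.pow 2)).add (tendsto_const_nhds (x := (1 : ℝ)).sub q1')
    have e : x ^ 2 / (x ^ 2 + 1) * 0 ^ 2 + (1 - x ^ 2 / (x ^ 2 + 1)) = 1 / (x ^ 2 + 1) := by
      field_simp
      ring
    rwa [e] at h
  have hden0 : (1 / (x ^ 2 + 1) : ℝ) ≠ 0 := by positivity
  have hre : Tendsto (fun m => (k m • (dg (t m) • (I : ℍ)) : ℍ).re) atTop (𝓝 x) := by
    have h := (q2'.mul (tendsto_const_nhds (x := (1 : ℝ)).sub (he.pow 2))).div hden hden0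
    have e : x / (x ^ 2 + 1) * (1 - 0 ^ 2) / (1 / (x ^ 2 + 1)) = x := by
      field_simp
      ring
    rw [e] at h
    refine h.congr' ?_
    filter_upwards [hk] with m hm
    simp only [Pi.div_apply]
    rw [(smul_formula hm (t m)).1, q1_SO2 hm]
  have him : Tendsto (fun m => (k m • (dg (t m) • (I : ℍ)) : ℍ).im) atTop (𝓝 0) := by
    have h := he.div hden hden0
    rw [zero_div] at h
    refine h.congr' ?_
    filter_upwards [hk] with m hm
    simp only [Pi.div_apply]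
    rw [(smul_formula hm (t m)).2, q1_SO2 hm]
  have h1 : Tendsto (fun m => (((k m • (dg (t m) • (I : ℍ)) : ℍ).re : ℂ) +
      ((k m • (dg (t m) • (I : ℍ)) : ℍ).im : ℂ) * Complex.I)) atTop
      (𝓝 ((x : ℂ) + ((0 : ℝ) : ℂ) * Complex.I)) :=
    ((Complex.continuous_ofReal.tendsto _).comp hre).add
      (((Complex.continuous_ofReal.tendsto _).comp him).mul_const _)
  rw [Complex.ofReal_zero, zero_mul, add_zero] at h1
  refine h1.congr fun m => ?_
  exact Complex.re_add_im _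

theorem tendsto_infinite {k : ℕ → SL} {t : ℕ → ℝ} (hk : ∀ᶠ m in atTop, k m ∈ SO2)
    (ht : Tendsto t atTop atTop)
    (hq : Tendsto (fun m => q1 (k m)) atTop (𝓝 (q1 1))) :
    Tendsto (fun m => ‖((k m • (dg (t m) • (I : ℍ)) : ℍ) : ℂ)‖) atTop atTop := by
  have hqs : q1 (1 : SL) = (1, 0) := by
    unfold q1
    rw [Matrix.SpecialLinearGroup.coe_one]
    simp
  rw [hqs] at hq
  have q1' : Tendsto (fun m => (q1 (k m)).1) atTop (𝓝 1) :=
    (continuous_fst.tendsto _).comp hq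
  have he := exp_neg_tendsto ht
  have hden : Tendsto (fun m => ((q1 (k m)).1 * Real.exp (-(t m)) ^ 2 + (1 - (q1 (k m)).1)) /
      ((q1 (k m)).1 + (1 - (q1 (k m)).1) * Real.exp (-(t m)) ^ 2)) atTop (𝓝 0) := by
    have h := ((q1'.mul (he.pow 2)).add (tendsto_const_nhds (x := (1 : ℝ)).sub q1')).div
      (q1'.add ((tendsto_const_nhds (x := (1 : ℝ)).sub q1').mul (he.pow 2))) (by norm_num)
    have e : ((1 : ℝ) * 0 ^ 2 + (1 - 1)) / (1 + (1 - 1) * 0 ^ 2) = 0 := by norm_num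
    rwa [e] at h
  have hpos : ∀ᶠ m in atTop, 0 < ((q1 (k m)).1 * Real.exp (-(t m)) ^ 2 + (1 - (q1 (k m)).1)) /
      ((q1 (k m)).1 + (1 - (q1 (k m)).1) * Real.exp (-(t m)) ^ 2) := by
    filter_upwards [hk, q1'.eventually_const_lt (show (0 : ℝ) < 1 by norm_num)] with m hm hm2
    obtain ⟨h1, _, _⟩ := SO2_entries hm
    rw [q1_SO2 hm] at hm2 ⊢
    have h2 : 1 - k m 0 0 ^ 2 = k m 1 0 ^ 2 := by linarith
    simp only [h2]
    simp only at hm2
    have := Real.exp_pos (-(t m))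
    positivity
  have h3 := (tendsto_nhdsWithin_iff.2 ⟨hden, hpos⟩)
  have h4 := h3.inv_tendsto_nhdsGT_zero
  have h5 := Real.tendsto_sqrt_atTop.comp h4
  refine h5.congr' ?_
  filter_upwards [hk, hpos] with m hm hm2
  obtain ⟨f1, f2⟩ := smul_formula hm (t m)
  obtain ⟨h1, _, _⟩ := SO2_entries hm
  rw [q1_SO2 hm] at hm2
  simp only [Function.comp, Pi.inv_apply]
  rw [q1_SO2 hm]
  obtain ⟨z, hz⟩ : ∃ z, z = (k m • (dg (t m) • (I : ℍ)) : ℍ) := ⟨_, rfl⟩
  rw [← hz] at f1 f2 ⊢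
  have hn : ‖(z : ℂ)‖ = Real.sqrt (z.re ^ 2 + z.im ^ 2) := by
    rw [Complex.norm_def, Complex.normSq_apply]
    congr 1
    change z.re * z.re + z.im * z.im = _
    ring
  rw [hn, f1, f2]
  congr 1
  obtain ⟨a, ha⟩ : ∃ a, a = k m 0 0 := ⟨_, rfl⟩
  obtain ⟨b, hb⟩ : ∃ b, b = k m 1 0 := ⟨_, rfl⟩
  obtain ⟨e, hee⟩ : ∃ e, e = Real.exp (-(t m)) := ⟨_, rfl⟩
  have he0 : 0 < e := by rw [hee]; exact Real.exp_pos _
  rw [← ha, ← hb] at h1
  simp only [← ha, ← hb, ← hee] at hm2 ⊢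
  have hb2 : b ^ 2 = 1 - a ^ 2 := by linarith
  have hd1 : 0 < a ^ 2 * e ^ 2 + (1 - a ^ 2) := by
    rw [← hb2]
    rcases eq_or_ne a 0 with h0 | h0
    · have : b ^ 2 = 1 := by rw [h0] at h1; linarith
      rw [this, h0]; norm_num
    · positivity
  have hd2 : 0 < a ^ 2 + (1 - a ^ 2) * e ^ 2 := by
    rw [← hb2]
    rcases eq_or_ne a 0 with h0 | h0
    · have : b ^ 2 = 1 := by rw [h0] at h1; linarith
      rw [this, h0]; positivity
    · positivity
  rw [inv_div, div_pow, div_pow, ← add_div, div_eq_div_iff hd1.ne' (by positivity), mul_pow, mul_pow,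
    hb2]
  ring

/-! ### limit points -/

theorem lim_data {Z : Type*} [PseudoMetricSpace Z] {f : Z → G} {L A : ℝ} (hL : 1 ≤ L)
    (h1 : ∀ z z' : Z, L⁻¹ * dist z z' - A ≤ (kappa ((f z)⁻¹ * f z')).1)
    (h2 : ∀ z z' : Z, L⁻¹ * dist z z' - A ≤ (kappa ((f z)⁻¹ * f z')).2)
    (g : G) (hg : (g : F) ∈ limitSet f) :
    ∃ z : ℕ → Z, ∃ k : ℕ → G, ∃ t : ℕ → ℝ × ℝ,
      (∀ᶠ m in atTop, k m ∈ K ∧ (f (z m)).1 • (I : ℍ) = (k m).1 • (dg (t m).1 • (I : ℍ)) ∧
        (f (z m)).2 • (I : ℍ) = (k m).2 • (dg (t m).2 • (I : ℍ))) ∧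
      Tendsto (fun m => (t m).1) atTop atTop ∧ Tendsto (fun m => (t m).2) atTop atTop ∧
      Tendsto (fun m => q1 (k m).1) atTop (𝓝 (q1 g.1)) ∧
      Tendsto (fun m => q1 (k m).2) atTop (𝓝 (q1 g.2)) := by
  obtain ⟨z, hz, u, hu, hlim⟩ := hg
  have hu' : ∀ᶠ m in atTop, ∃ y : (ℝ × ℝ) × G, 0 < y.1.1 ∧ 0 < y.1.2 ∧ y.2 ∈ K ∧
      ∃ k' ∈ K, f (z m) = y.2 * expA y.1 * k' ∧ u m = (y.2 : F) := by
    filter_upwards [hu] with m hm
    obtain ⟨t, ht1, ht2, k, hk, k', hk', e1, e2⟩ := hm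
    exact ⟨(t, k), ht1, ht2, hk, k', hk', e1, e2⟩
  obtain ⟨y, hy⟩ := hu'.choice
  have hdist : Tendsto (fun m => L⁻¹ * dist (z 0) (z m)) atTop atTop := by
    have h := (Metric.tendsto_dist_right_cobounded_atTop (z 0)).comp hz
    have hL0 : 0 < L⁻¹ := inv_pos.2 (by linarith)
    refine (h.const_mul_atTop hL0).congr fun m => ?_
    simp only [Function.comp]
    rw [dist_comm]
  refine ⟨z, fun m => (y m).2, fun m => (y m).1, ?_, ?_, ?_, ?_, ?_⟩
  · filter_upwards [hy] with m hm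
    obtain ⟨_, _, hk, k', hk', e1, _⟩ := hm
    refine ⟨hk, ?_, ?_⟩
    · rw [e1]
      change ((y m).2.1 * dg (y m).1.1 * k'.1) • (I : ℍ) = _
      rw [mul_smul, SO2_smul_I hk'.1, mul_smul]
    · rw [e1]
      change ((y m).2.2 * dg (y m).1.2 * k'.2) • (I : ℍ) = _
      rw [mul_smul, SO2_smul_I hk'.2, mul_smul]
  · have h3 : Tendsto (fun m => L⁻¹ * dist (z 0) (z m) +
        (-(A + dist (I : ℍ) ((f (z 0)).1 • I)))) atTop atTop :=
      tendsto_atTop_add_const_right _ _ hdist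
    refine tendsto_atTop_mono' _ ?_ h3
    filter_upwards [hy] with m hm
    obtain ⟨ht1, ht2, hk, k', hk', e1, _⟩ := hm
    have e3 : dist (I : ℍ) ((f (z m)).1 • I) = (y m).1.1 := by
      rw [e1]
      exact dist_cartan ht1.le hk.1 hk'.1
    have h4 := h1 (z 0) (z m)
    rw [kappa_fst] at h4
    have h5 := dist_triangle ((f (z 0)).1 • (I : ℍ)) I ((f (z m)).1 • (I : ℍ))
    rw [dist_comm ((f (z 0)).1 • (I : ℍ)) I] at h5
    linarith
  · have h3 : Tendsto (fun m => L⁻¹ * dist (z 0) (z m) +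
        (-(A + dist (I : ℍ) ((f (z 0)).2 • I)))) atTop atTop :=
      tendsto_atTop_add_const_right _ _ hdist
    refine tendsto_atTop_mono' _ ?_ h3
    filter_upwards [hy] with m hm
    obtain ⟨ht1, ht2, hk, k', hk', e1, _⟩ := hm
    have e3 : dist (I : ℍ) ((f (z m)).2 • I) = (y m).1.2 := by
      rw [e1]
      exact dist_cartan ht2.le hk.2 hk'.2
    have h4 := h2 (z 0) (z m)
    rw [kappa_snd] at h4
    have h5 := dist_triangle ((f (z 0)).2 • (I : ℍ)) I ((f (z m)).2 • (I : ℍ))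
    rw [dist_comm ((f (z 0)).2 • (I : ℍ)) I] at h5
    linarith
  · have h3 : Tendsto (fun m => (q2 (u m)).1) atTop (𝓝 (q2 (g : F)).1) :=
      ((continuous_fst.comp continuous_q2).tendsto _).comp hlim
    refine h3.congr' ?_
    filter_upwards [hy] with m hm
    obtain ⟨_, _, _, _, _, _, e2⟩ := hm
    rw [e2, q2_mk]
  · have h3 : Tendsto (fun m => (q2 (u m)).2) atTop (𝓝 (q2 (g : F)).2) :=
      ((continuous_snd.comp continuous_q2).tendsto _).comp hlim
    refine h3.congr' ?_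
    filter_upwards [hy] with m hm
    obtain ⟨_, _, _, _, _, _, e2⟩ := hm
    rw [e2, q2_mk]

/-- limit points of the circle other than infinity -/
theorem lim_fin {Z : Type*} [PseudoMetricSpace Z] {f : Z → G} {L A : ℝ} (hL : 1 ≤ L)
    (h1 : ∀ z z' : Z, L⁻¹ * dist z z' - A ≤ (kappa ((f z)⁻¹ * f z')).1)
    (h2 : ∀ z z' : Z, L⁻¹ * dist z z' - A ≤ (kappa ((f z)⁻¹ * f z')).2)
    (hsub : Lam ⊆ limitSet f) (x : ℝ) :
    ∃ z : ℕ → Z, Tendsto (fun m => (((f (z m)).1 • (I : ℍ) : ℍ) : ℂ)) atTop (𝓝 (x : ℂ)) ∧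
      Tendsto (fun m => (((f (z m)).2 • (I : ℍ) : ℍ) : ℂ)) atTop (𝓝 ((hR x : ℝ) : ℂ)) := by
  obtain ⟨z, k, t, e, t1, t2, q1', q2'⟩ := lim_data hL h1 h2 (s x, s (hR x))
    (hsub (Or.inr ⟨x, rfl⟩))
  refine ⟨z, ?_, ?_⟩
  · refine (tendsto_finite (e.mono fun m hm => hm.1.1) t1 x q1').congr' ?_
    filter_upwards [e] with m hm
    rw [hm.2.1]
  · refine (tendsto_finite (e.mono fun m hm => hm.1.2) t2 (hR x) q2').congr' ?_
    filter_upwards [e] with m hm
    rw [hm.2.2]

theorem lim_inf {Z : Type*} [PseudoMetricSpace Z] {f : Z → G} {L A : ℝ} (hL : 1 ≤ L)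
    (h1 : ∀ z z' : Z, L⁻¹ * dist z z' - A ≤ (kappa ((f z)⁻¹ * f z')).1)
    (h2 : ∀ z z' : Z, L⁻¹ * dist z z' - A ≤ (kappa ((f z)⁻¹ * f z')).2)
    (hsub : Lam ⊆ limitSet f) :
    ∃ z : ℕ → Z, Tendsto (fun m => ‖(((f (z m)).1 • (I : ℍ) : ℍ) : ℂ)‖) atTop atTop ∧
      Tendsto (fun m => ‖(((f (z m)).2 • (I : ℍ) : ℍ) : ℂ)‖) atTop atTop := by
  obtain ⟨z, k, t, e, t1, t2, q1', q2'⟩ := lim_data hL h1 h2 1 (hsub (Or.inl rfl))
  refine ⟨z, ?_, ?_⟩
  · refine (tendsto_infinite (e.mono fun m hm => hm.1.1) t1 q1').congr' ?_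
    filter_upwards [e] with m hm
    rw [hm.2.1]
  · refine (tendsto_infinite (e.mono fun m hm => hm.1.2) t2 q2').congr' ?_
    filter_upwards [e] with m hm
    rw [hm.2.2]

theorem tri_ev {a b c : ℕ → ℍ} {α β : ℝ} (hαβ : α ≠ β)
    (ha : Tendsto (fun m => ((a m : ℍ) : ℂ)) atTop (𝓝 (α : ℂ)))
    (hb : Tendsto (fun m => ((b m : ℍ) : ℂ)) atTop (𝓝 (β : ℂ)))
    (hc : Tendsto (fun m => ‖((c m : ℍ) : ℂ)‖) atTop atTop) (M : ℝ) :
    ∀ᶠ m in atTop, |α - β| / 2 ≤ nn (a m) (b m) ∧ nn (a m) (b m) ≤ 2 * |α - β| ∧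
      2 * M * nn (a m) (b m) ≤ nn (a m) (c m) ∧ 2 * M * nn (a m) (b m) ≤ nn (b m) (c m) := by
  have h0 : 0 < |α - β| := abs_pos.2 (sub_ne_zero.2 hαβ)
  have hab : Tendsto (fun m => nn (a m) (b m)) atTop (𝓝 |α - β|) := by
    have h := ha.dist ((Complex.continuous_conj.tendsto _).comp hb)
    have e : dist (α : ℂ) ((starRingEnd ℂ) (β : ℂ)) = |α - β| := by
      rw [Complex.conj_ofReal, Complex.dist_eq, ← Complex.ofReal_sub, Complex.norm_real,
        Real.norm_eq_abs]
    rw [e] at h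
    exact h
  have inf : ∀ (d : ℕ → ℍ) (δ : ℝ), Tendsto (fun m => ((d m : ℍ) : ℂ)) atTop (𝓝 (δ : ℂ)) →
      Tendsto (fun m => nn (d m) (c m)) atTop atTop := by
    intro d δ hd
    have h1 : Tendsto (fun m => ‖((c m : ℍ) : ℂ)‖ + -‖((d m : ℍ) : ℂ)‖) atTop atTop :=
      hc.atTop_add (hd.norm.neg)
    refine tendsto_atTop_mono ?_ h1
    intro m
    unfold nn
    rw [Complex.dist_eq]
    have h2 := norm_sub_norm_le ((starRingEnd ℂ) ((c m : ℍ) : ℂ)) ((d m : ℍ) : ℂ)
    rw [RCLike.norm_conj, norm_sub_rev] at h2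
    linarith
  have e1 := hab.eventually (lt_mem_nhds (show |α - β| / 2 < |α - β| by linarith))
  have e2 := hab.eventually (gt_mem_nhds (show |α - β| < 2 * |α - β| by linarith))
  have e3 := (inf a α ha).eventually_ge_atTop (2 * |M| * (2 * |α - β|))
  have e4 := (inf b β hb).eventually_ge_atTop (2 * |M| * (2 * |α - β|))
  filter_upwards [e1, e2, e3, e4] with m h1 h2 h3 h4
  have h5 : 2 * M * nn (a m) (b m) ≤ 2 * |M| * (2 * |α - β|) := by
    have h6 : 2 * M ≤ 2 * |M| := by linarith [le_abs_self M]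
    have h7 := nn_pos (a m) (b m)
    calc 2 * M * nn (a m) (b m) ≤ 2 * |M| * nn (a m) (b m) :=
          mul_le_mul_of_nonneg_right h6 h7.le
      _ ≤ 2 * |M| * (2 * |α - β|) := mul_le_mul_of_nonneg_left h2.le (by positivity)
  exact ⟨h1.le, h2.le, h5.trans h3, h5.trans h4⟩

theorem no_filling {Z : Type*} [PseudoMetricSpace Z] (hZ : QuasiGeodesic Z) (f : Z → G)
    (hf : IsRegularQI f) : ¬ (Lam ⊆ limitSet f) := by
  intro hsub
  obtain ⟨L, A, hL, hA, hfz⟩ := hf
  have h1 : ∀ z z', L⁻¹ * dist z z' - A ≤ (kappa ((f z)⁻¹ * f z')).1 := fun z z' => (hfz z z').2.1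
  have h2 : ∀ z z', L⁻¹ * dist z z' - A ≤ (kappa ((f z)⁻¹ * f z')).2 := fun z z' => (hfz z z').2.2
  have hL0 : 0 < L := by linarith
  have Q1 : QIE L A (fun z => (f z).1 • (I : ℍ)) := by
    constructor
    · intro z z'
      have h := (hfz z z').1
      have h3 : (kappa ((f z)⁻¹ * f z')).1 ≤ dX (f z) (f z') := by
        unfold dX
        apply Real.le_sqrt_of_sq_le
        have := sq_nonneg (kappa ((f z)⁻¹ * f z')).2
        linarith
      rw [kappa_fst] at h3
      exact h3.trans h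
    · intro z z'
      have h := h1 z z'
      rw [kappa_fst] at h
      have h3 : L⁻¹ * dist z z' ≤ dist ((f z).1 • (I : ℍ)) ((f z').1 • I) + A := by linarith
      rwa [inv_mul_le_iff₀ hL0] at h3
  have Q2 : QIE L A (fun z => (f z).2 • (I : ℍ)) := by
    constructor
    · intro z z'
      have h := (hfz z z').1
      have h3 : (kappa ((f z)⁻¹ * f z')).2 ≤ dX (f z) (f z') := by
        unfold dX
        apply Real.le_sqrt_of_sq_le
        have := sq_nonneg (kappa ((f z)⁻¹ * f z')).1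
        linarith
      rw [kappa_snd] at h3
      exact h3.trans h
    · intro z z'
      have h := h2 z z'
      rw [kappa_snd] at h
      have h3 : L⁻¹ * dist z z' ≤ dist ((f z).2 • (I : ℍ)) ((f z').2 • I) + A := by linarith
      rwa [inv_mul_le_iff₀ hL0] at h3
  obtain ⟨c, hc, hq⟩ := hZ
  have hc0 : 0 < c := by linarith
  have hZ' : QGSpace Z c c := by
    intro x y
    obtain ⟨n, q, h3, h4, h5⟩ := hq x y
    refine ⟨n, q, h3, h4, ?_, ?_⟩
    · intro i j hij hj
      have h6 := (h5 i j hij hj).1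
      have h7 : (j - i : ℝ) / c ≤ dist (q i) (q j) + c := by linarith
      rw [div_le_iff₀ hc0] at h7
      linarith
    · intro i j hij hj
      exact (h5 i j hij hj).2
  obtain ⟨D, hD, hcen⟩ := common_center hyp_H geod_H hyp_H geod_H hc0.le hc0.le hZ' hL hA Q1 Q2
  obtain ⟨M, hM⟩ : ∃ M, M = 4 * Real.exp (D / 2) := ⟨_, rfl⟩
  have hM0 : 0 < M := by rw [hM]; have := Real.exp_pos (D / 2); linarith
  obtain ⟨E, hE⟩ : ∃ E, E = L * (L * (2 * Real.log (32 * M ^ 2) + A)) + A := ⟨_, rfl⟩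
  obtain ⟨τ, hτ⟩ : ∃ τ, τ = 16 * M ^ 2 * Real.exp E := ⟨_, rfl⟩
  have hτ0 : 0 < τ := by rw [hτ]; have := Real.exp_pos E; positivity
  obtain ⟨za, a1, a2⟩ := lim_fin hL h1 h2 hsub (-τ)
  obtain ⟨zd, d1, d2⟩ := lim_fin hL h1 h2 hsub τ
  obtain ⟨zb, b1, b2⟩ := lim_fin hL h1 h2 hsub 0
  obtain ⟨zc, c1, c2⟩ := lim_inf hL h1 h2 hsub
  have r1 : hR (-τ) = -τ := by
    unfold hR
    rw [max_eq_right (by linarith)]
    norm_num
  have r2 : hR τ = τ + τ ^ 2 := by
    unfold hR
    rw [max_eq_left hτ0.le]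
  have r3 : hR 0 = 0 := by
    unfold hR
    norm_num
  rw [r1] at a2
  rw [r2] at d2
  rw [r3] at b2
  have ev := (((tri_ev (by linarith : -τ ≠ 0) a1 b1 c1 M).and
    (tri_ev (by linarith : τ ≠ 0) d1 b1 c1 M)).and
    ((tri_ev (by linarith : -τ ≠ 0) a2 b2 c2 M).and
    (tri_ev (by positivity : τ + τ ^ 2 ≠ 0) d2 b2 c2 M))).exists
  obtain ⟨m, ⟨T1, T2⟩, T3, T4⟩ := ev
  have s1 : |(-τ) - 0| = τ := by rw [sub_zero, abs_neg, abs_of_pos hτ0]
  have s2 : |τ - 0| = τ := by rw [sub_zero, abs_of_pos hτ0]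
  have s3 : |τ + τ ^ 2 - 0| = τ + τ ^ 2 := by rw [sub_zero, abs_of_pos (by positivity)]
  rw [s1] at T1 T3
  rw [s2] at T2
  rw [s3] at T4
  obtain ⟨w, W1, W2⟩ := hcen (za m) (zb m) (zc m)
  obtain ⟨v, V1, V2⟩ := hcen (zd m) (zb m) (zc m)
  have p1 := center_pos W1 hM T1.2.2.1 T1.2.2.2
  have p2 := center_pos V1 hM T2.2.2.1 T2.2.2.2
  have p3 := center_pos W2 hM T3.2.2.1 T3.2.2.2
  have p4 := center_pos V2 hM T4.2.2.1 T4.2.2.2
  obtain ⟨w1, hw1⟩ : ∃ x, x = (f w).1 • (I : ℍ) := ⟨_, rfl⟩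
  obtain ⟨w2, hw2⟩ : ∃ x, x = (f w).2 • (I : ℍ) := ⟨_, rfl⟩
  obtain ⟨v1, hv1⟩ : ∃ x, x = (f v).1 • (I : ℍ) := ⟨_, rfl⟩
  obtain ⟨v2, hv2⟩ : ∃ x, x = (f v).2 • (I : ℍ) := ⟨_, rfl⟩
  obtain ⟨bb, hbb⟩ : ∃ x, x = (f (zb m)).1 • (I : ℍ) := ⟨_, rfl⟩
  rw [← hw1, ← hbb] at p1
  rw [← hv1, ← hbb] at p2
  rw [← hw2] at p3
  rw [← hv2] at p4
  -- first factor
  have k1 : nn w1 bb ≤ 2 * M * τ := by
    have := mul_le_mul_of_nonneg_left T1.2.1 hM0.le
    rw [← hbb] at this
    linarith [p1.1]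
  have k2 : nn v1 bb ≤ 2 * M * τ := by
    have := mul_le_mul_of_nonneg_left T2.2.1 hM0.le
    rw [← hbb] at this
    linarith [p2.1]
  have k3 : τ ≤ 8 * M * w1.im := by
    have h3 := T1.1
    rw [← hbb] at h3
    linarith [p1.2.2]
  have k4 : τ ≤ 8 * M * v1.im := by
    have h3 := T2.1
    rw [← hbb] at h3
    linarith [p2.2.2]
  have k5 : nn w1 v1 ≤ 4 * M * τ := by
    have h3 := norm_sub_le_nn w1 bb
    have h4 : nn w1 v1 ≤ ‖(w1 : ℂ) - bb‖ + nn bb v1 := by
      unfold nn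
      rw [← Complex.dist_eq]
      exact dist_triangle _ _ _
    rw [nn_comm bb v1] at h4
    linarith
  have k6 : τ / (8 * M) ≤ Real.sqrt (w1.im * v1.im) := by
    apply Real.le_sqrt_of_sq_le
    have h3 : τ / (8 * M) ≤ w1.im := by rw [div_le_iff₀ (by positivity)]; linarith
    have h4 : τ / (8 * M) ≤ v1.im := by rw [div_le_iff₀ (by positivity)]; linarith
    have h5 : 0 ≤ τ / (8 * M) := by positivity
    rw [sq]
    exact mul_le_mul h3 h4 h5 w1.im_pos.le
  have k7 : Real.cosh (dist w1 v1 / 2) ≤ 16 * M ^ 2 := by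
    rw [nn_eq] at k5
    have h3 : Real.cosh (dist w1 v1 / 2) * (2 * (τ / (8 * M))) ≤
        Real.cosh (dist w1 v1 / 2) * (2 * Real.sqrt (w1.im * v1.im)) :=
      mul_le_mul_of_nonneg_left (by linarith) (Real.cosh_pos _).le
    have h4 : Real.cosh (dist w1 v1 / 2) * (2 * (τ / (8 * M))) ≤ 4 * M * τ := h3.trans k5
    have h5 : Real.cosh (dist w1 v1 / 2) * (2 * (τ / (8 * M))) =
        (Real.cosh (dist w1 v1 / 2) / (4 * M)) * τ := by
      field_simp
      ring
    rw [h5] at h4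
    have h6 := le_of_mul_le_mul_right h4 hτ0
    rw [div_le_iff₀ (by positivity)] at h6
    linarith
  have k8 : dist w1 v1 ≤ 2 * Real.log (32 * M ^ 2) := by
    have h3 : Real.exp (dist w1 v1 / 2) ≤ 32 * M ^ 2 := by
      have := exp_le_two_cosh (dist w1 v1 / 2)
      linarith
    have h4 := (Real.le_log_iff_exp_le (by positivity)).2 h3
    linarith
  -- the distance in the second factor
  have k9 : dist w2 v2 ≤ E := by
    have h3 := Q1.lower w v
    have h4 := Q2.upper w v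
    simp only [← hw1, ← hv1, ← hw2, ← hv2] at h3 h4
    have h5 : L * dist w v ≤ L * (L * (2 * Real.log (32 * M ^ 2) + A)) :=
      mul_le_mul_of_nonneg_left (h3.trans (mul_le_mul_of_nonneg_left (by linarith) hL0.le)) hL0.le
    linarith
  have j1 : w2.im ≤ 2 * M * τ := by
    have := mul_le_mul_of_nonneg_left T3.2.1 hM0.le
    linarith [p3.2.1]
  have j2 : τ + τ ^ 2 ≤ 8 * M * v2.im := by
    linarith [p4.2.2, T4.1]
  have j3 : v2.im ≤ Real.exp E * w2.im := by
    have h3 := UpperHalfPlane.dist_log_im_le w2 v2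
    rw [Real.dist_eq] at h3
    have h4 := (abs_le.1 (h3.trans k9)).1
    have h5 : Real.log v2.im ≤ E + Real.log w2.im := by linarith
    have h6 := Real.exp_le_exp.2 h5
    rw [Real.exp_add, Real.exp_log v2.im_pos, Real.exp_log w2.im_pos] at h6
    exact h6
  have j4 : τ + τ ^ 2 ≤ τ * τ := by
    have h3 : Real.exp E * w2.im ≤ Real.exp E * (2 * M * τ) :=
      mul_le_mul_of_nonneg_left j1 (Real.exp_pos _).le
    have h4 : 8 * M * v2.im ≤ 8 * M * (Real.exp E * (2 * M * τ)) :=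
      mul_le_mul_of_nonneg_left (j3.trans h3) (by positivity)
    calc τ + τ ^ 2 ≤ 8 * M * v2.im := j2
      _ ≤ 8 * M * (Real.exp E * (2 * M * τ)) := h4
      _ = (16 * M ^ 2 * Real.exp E) * τ := by ring
      _ = τ * τ := by rw [← hτ]
  nlinarith

theorem QuasiGeodesic.of_geodesic {Z : Type*} [PseudoMetricSpace Z] (h : Geodesic Z) :
    QuasiGeodesic Z := by
  refine ⟨1, le_rfl, fun x y => ?_⟩
  obtain ⟨γ, h0, h1, h2⟩ := h x y
  obtain ⟨l, hl⟩ : ∃ l, l = dist x y := ⟨_, rfl⟩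
  have hl0 : 0 ≤ l := by rw [hl]; exact dist_nonneg
  rw [← hl] at h1 h2
  obtain ⟨n, hn⟩ : ∃ n, n = ⌈l⌉₊ := ⟨_, rfl⟩
  have hn1 : l ≤ n := by rw [hn]; exact Nat.le_ceil l
  have hn2 : (n : ℝ) < l + 1 := by rw [hn]; exact Nat.ceil_lt_add_one hl0
  refine ⟨n, fun i => γ (min (i : ℝ) l), ?_, ?_, ?_⟩
  · simp only [Nat.cast_zero]
    rw [min_eq_left hl0, h0]
  · simp only
    rw [min_eq_right hn1, h1]
  · intro i j hij hj
    have hi' : min (i : ℝ) l ∈ Set.Icc 0 l := ⟨le_min (Nat.cast_nonneg i) hl0, min_le_right _ _⟩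
    have hj' : min (j : ℝ) l ∈ Set.Icc 0 l := ⟨le_min (Nat.cast_nonneg j) hl0, min_le_right _ _⟩
    have hij' : (i : ℝ) ≤ j := by exact_mod_cast hij
    have hjn : (j : ℝ) ≤ n := by exact_mod_cast hj
    simp only
    rw [h2 _ hi' _ hj', abs_sub_comm, abs_of_nonneg (sub_nonneg.2 (min_le_min_right l hij'))]
    constructor
    · rcases le_total (j : ℝ) l with h3 | h3
      · rw [min_eq_left h3, min_eq_left (hij'.trans h3)]
        linarith
      · rw [min_eq_right h3]
        rcases le_total (i : ℝ) l with h4 | h4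
        · rw [min_eq_left h4]
          linarith
        · rw [min_eq_right h4]
          linarith
    · rcases le_total (j : ℝ) l with h3 | h3
      · rw [min_eq_left h3, min_eq_left (hij'.trans h3)]
        linarith
      · rw [min_eq_right h3]
        rcases le_total (i : ℝ) l with h4 | h4
        · rw [min_eq_left h4]
          linarith
        · rw [min_eq_right h4]
          linarith

/-- **The answer to Q1 is no.**  For `G = SL₂(ℝ) × SL₂(ℝ)` and `Θ = Δ` the set `Lam` is a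
transverse circle in `F_Θ`, and it is not the `Θ`-limit set of any `Θ`-uniformly regular
quasi-isometric embedding `Z → G/K` of a geodesic metric space `Z`; more generally it is not even
contained in the `Θ`-limit set of a `Θ`-uniformly regular quasi-isometric embedding of a
quasi-geodesic metric space.  Nothing else is assumed on `Z`. -/
theorem result : IsTransverseSphere Lam ∧
    (∀ (Z : Type*) [MetricSpace Z], Geodesic Z → ¬ ∃ f : Z → G, IsRegularQI f ∧ limitSet f = Lam) ∧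
    (∀ (Z : Type*) [MetricSpace Z], QuasiGeodesic Z →
      ¬ ∃ f : Z → G, IsRegularQI f ∧ Lam ⊆ limitSet f) := by
  refine ⟨lam_sphere, ?_, ?_⟩
  · rintro Z _ hZ ⟨f, hf, hlim⟩
    exact no_filling (QuasiGeodesic.of_geodesic hZ) f hf hlim.ge
  · rintro Z _ hZ ⟨f, hf, hlim⟩
    exact no_filling hZ f hf hlim

end Pool.Agent.Results.MP_02cffa_gt.NonQuasisymmetricCircle
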